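import Pool.Agent.Helper34.GS.KAHM
import Pool.Agent.Helper45.RBC.CHP
import Pool.Agent.Helper9.RK.ParK
import Pool.Agent.Helper69.HS.PUSHV

/-! # HB: an invariant Kähler metric of the étale relation comes from a Kähler metric on the manifold -/

open Complex Metric Set Filter Topology MeasureTheory
open scoped ContDiff ComplexConjugate ComplexOrder Manifold Matrix

namespace Pool.Agent.Helper45.HB

open Pool.Agent.Helper95.Lin Pool.Agent.Helper16.Abund Pool.Agent.Helper92.Orb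
  Pool.Agent.Helper10.SP Pool.Agent.Helper95.RK Pool.Agent.Helper57.HS
  Pool.Agent.Helper15.HS Pool.Agent.Helper10.HS Pool.Agent.Helper15.GS
open Pool.Agent.Helper70.HS (Jt)

universe u v

/-- PUSHQ. An invariant Kähler metric `Q` of the étale relation is the pull back of an invariant Kähler
metric of `M`. -/
def S_PUSHQ : Prop := ∀ {n : ℕ} {G : Type u} {M : Type v} [Group G] [MulAction G M]
  [TopologicalSpace M] [T2Space M] [ConnectedSpace M] [ChartedSpace (Fin n → ℂ) M]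
  [IsManifold 𝓘(ℂ, Fin n → ℂ) ω M] {h : M → Matrix (Fin n) (Fin n) ℂ}, DataH n G M h →
  ∀ (T : Set (Cn n)) (E : Cn n → M), Par n E T →
  (∃ C ⊆ T, IsCompact C ∧ ∀ p : M, ∃ (γ : G), ∃ x ∈ C, γ • p = E x) →
  ∀ Q : Cn n → Matrix (Fin n) (Fin n) ℂ, KEt T (RelT (G := G) T E) Q →
  ∃ q : M → Matrix (Fin n) (Fin n) ℂ, HermMetric n M q ∧ KahlerMetric n M q ∧
    (∀ γ : G, InvMetric n q (fun y : M => γ • y)) ∧ ∀ x ∈ T, pm n q E x = Q x

section

variable {n : ℕ} {G : Type u} {M : Type v} [Group G] [MulAction G M]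
  [TopologicalSpace M] [T2Space M] [ChartedSpace (Fin n → ℂ) M]
  [IsManifold 𝓘(ℂ, Fin n → ℂ) ω M] {h : M → Matrix (Fin n) (Fin n) ℂ}

/-- The inverse of the differential of `E` at `x`. -/
noncomputable def Einv (E : Cn n → M) (x : Cn n) : Cn n →L[ℂ] Cn n :=
  LinearMap.toContinuousLinearMap
    (Matrix.toLin' (LinearMap.toMatrix' (dmap n E x : Cn n →ₗ[ℂ] Cn n))⁻¹)

theorem Einv_apply {E : Cn n → M} {x : Cn n} (hx : jac n E x ≠ 0) (u : Cn n) :
    Einv E x (dvec n E x u) = u := by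
  have hdet : (LinearMap.toMatrix' (dmap n E x : Cn n →ₗ[ℂ] Cn n)).det ≠ 0 := by
    rw [LinearMap.det_toMatrix']
    exact hx
  have h1 : dvec n E x u = LinearMap.toMatrix' (dmap n E x : Cn n →ₗ[ℂ] Cn n) *ᵥ u :=
    (LinearMap.toMatrix'_mulVec _ _).symm
  show Matrix.toLin' _ (dvec n E x u) = u
  rw [Matrix.toLin'_apply, h1, Matrix.mulVec_mulVec,
    Matrix.nonsing_inv_mul _ (isUnit_iff_ne_zero.2 hdet), Matrix.one_mulVec]

theorem apply_Einv {E : Cn n → M} {x : Cn n} (hx : jac n E x ≠ 0) (u : Cn n) :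
    dvec n E x (Einv E x u) = u := by
  have hdet : (LinearMap.toMatrix' (dmap n E x : Cn n →ₗ[ℂ] Cn n)).det ≠ 0 := by
    rw [LinearMap.det_toMatrix']
    exact hx
  have h1 : ∀ w, dvec n E x w = LinearMap.toMatrix' (dmap n E x : Cn n →ₗ[ℂ] Cn n) *ᵥ w :=
    fun w => (LinearMap.toMatrix'_mulVec _ _).symm
  show dvec n E x (Matrix.toLin' _ u) = u
  rw [Matrix.toLin'_apply, h1, Matrix.mulVec_mulVec,
    Matrix.mul_nonsing_inv _ (isUnit_iff_ne_zero.2 hdet), Matrix.one_mulVec]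

/-- The local value of the metric. -/
noncomputable def qloc (E : Cn n → M) (Q : Cn n → Matrix (Fin n) (Fin n) ℂ) (γ : G) (x : Cn n)
    (p : M) : Matrix (Fin n) (Fin n) ℂ :=
  Jt ((Einv E x).comp (tmap n (fun y : M => γ • y) p)) * Q x *
    (Jt ((Einv E x).comp (tmap n (fun y : M => γ • y) p)))ᴴ

theorem herm_qloc (E : Cn n → M) (Q : Cn n → Matrix (Fin n) (Fin n) ℂ) (γ : G) (x : Cn n)
    (p : M) (u w : Cn n) : herm (qloc E Q γ x p) u w =
      hermi (Q x) (Einv E x (tvec n (fun y : M => γ • y) p u))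
        (Einv E x (tvec n (fun y : M => γ • y) p w)) := by
  have h1 := Pool.Agent.Helper45.RBC.mat_form (qloc E Q γ x p) (Q x)
    ((Einv E x).comp (tmap n (fun y : M => γ • y) p)) rfl u w
  exact h1.symm

/-- The differential of `γ • ψ = E ∘ τ`. -/
theorem dvec_arrow (hD : DataH n G M h) {V T : Set (Cn n)} {ψ E : Cn n → M}
    (hψ : ∀ z ∈ V, MDifferentiableAt 𝓘(ℂ, Fin n → ℂ) 𝓘(ℂ, Fin n → ℂ) ψ z) (hE : Par n E T)
    {γ : G} {τ : Cn n → Cn n} {N : Set (Cn n)} (hN : IsOpen N) (hNV : N ⊆ V)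
    (hτ : DifferentiableOn ℂ τ N) (hmaps : MapsTo τ N T)
    (heq : ∀ z ∈ N, γ • ψ z = E (τ z)) {z : Cn n} (hz : z ∈ N) (e : Cn n) :
    dvec n E (τ z) (fderiv ℂ τ z e) = tvec n (fun y : M => γ • y) (ψ z) (dvec n ψ z e) := by
  have hT : IsOpen T := hE.1.1
  have hEat : MDifferentiableAt 𝓘(ℂ, Fin n → ℂ) 𝓘(ℂ, Fin n → ℂ) E (τ z) :=
    hE.1.2.mdifferentiableAt (hT.mem_nhds (hmaps hz))
  have hτat : MDifferentiableAt 𝓘(ℂ, Fin n → ℂ) 𝓘(ℂ, Fin n → ℂ) τ z :=
    mdifferentiableAt_iff_differentiableAt.2 (hτ.differentiableAt (hN.mem_nhds hz))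
  have h1 := mfderiv_comp z hEat hτat
  have h2 := mfderiv_comp z (g := fun y : M => γ • y) (f := ψ) (hD.act.holo γ (ψ z))
    (hψ z (hNV hz))
  have h3 : (E ∘ τ) =ᶠ[𝓝 z] ((fun y : M => γ • y) ∘ ψ) := by
    filter_upwards [hN.mem_nhds hz] with y hy using (heq y hy).symm
  have h4 := h3.mfderiv_eq (I := 𝓘(ℂ, Fin n → ℂ)) (I' := 𝓘(ℂ, Fin n → ℂ))
  have h6 : (mfderiv 𝓘(ℂ, Fin n → ℂ) 𝓘(ℂ, Fin n → ℂ) (E ∘ τ) z :
      (Fin n → ℂ) →L[ℂ] (Fin n → ℂ)) e = dvec n E (τ z) (fderiv ℂ τ z e) := by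
    rw [h1, mfderiv_eq_fderiv]
    rfl
  have h7 : (mfderiv 𝓘(ℂ, Fin n → ℂ) 𝓘(ℂ, Fin n → ℂ) ((fun y : M => γ • y) ∘ ψ) z :
      (Fin n → ℂ) →L[ℂ] (Fin n → ℂ)) e =
      tvec n (fun y : M => γ • y) (ψ z) (dvec n ψ z e) := by
    rw [h2]
    rfl
  rw [← h6, ← h7]
  exact congrArg (fun L : Cn n →L[ℂ] Cn n => L e) h4

theorem tvec_mul (hD : DataH n G M h) (δ γ : G) (p : M) (u : Cn n) :
    tvec n (fun y : M => (δ * γ) • y) p u =
      tvec n (fun y : M => δ • y) (γ • p) (tvec n (fun y : M => γ • y) p u) := by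
  have h2 := mfderiv_comp p (g := fun y : M => δ • y) (f := fun y : M => γ • y)
    (hD.act.holo δ (γ • p)) (hD.act.holo γ p)
  have h3 : (fun y : M => (δ * γ) • y) = (fun y : M => δ • y) ∘ fun y : M => γ • y := by
    funext y
    exact mul_smul δ γ y
  rw [h3]
  exact congrArg (fun L : Cn n →L[ℂ] Cn n => L u) h2

theorem tvec_one (p : M) (u : Cn n) : tvec n (fun y : M => (1 : G) • y) p u = u := by
  have h3 : (fun y : M => (1 : G) • y) = id := by
    funext y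
    exact one_smul G y
  rw [h3]
  exact congrArg (fun L : Cn n →L[ℂ] Cn n => L u)
    (mfderiv_id (I := 𝓘(ℂ, Fin n → ℂ)) (x := p))

theorem qloc_wd (hPAR : S_PARH.{u, v}) (hD : DataH n G M h)
    {T : Set (Cn n)} {E : Cn n → M} (hE : Par n E T)
    {Q : Cn n → Matrix (Fin n) (Fin n) ℂ} (hQ : KEt T (RelT (G := G) T E) Q)
    {γ γ' : G} {x x' : Cn n} (hx : x ∈ T) (hx' : x' ∈ T) {p : M} (h1 : γ • p = E x)
    (h2 : γ' • p = E x') (u w : Cn n) :
    herm (qloc E Q γ x p) u w = herm (qloc E Q γ' x' p) u w := by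
  have hδ : (γ' * γ⁻¹) • E x = E x' := by
    rw [← h1, ← h2, mul_smul, inv_smul_smul]
  obtain ⟨τ, U, W, hU, hW, hxU, hxW, hUT, hWT, hτ, -, hm, hτx, hdet, hiff⟩ :=
    (hPAR hD).2.2.1 T T E E hE hE (γ' * γ⁻¹) x hx x' hx' hδ
  have he : ∀ y ∈ U, (γ' * γ⁻¹) • E y = E (τ y) := fun y hy => (hiff y hy (τ y) (hm hy)).2 rfl
  have hA : Arr (RelT (G := G) T E) U τ :=
    ⟨hU, hτ, γ' * γ⁻¹, fun y hy => ⟨hUT hy, hWT (hm hy), he y hy⟩⟩
  have key : ∀ u, Einv E x' (tvec n (fun y : M => γ' • y) p u) =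
      fderiv ℂ τ x (Einv E x (tvec n (fun y : M => γ • y) p u)) := by
    intro u
    have e1 : tvec n (fun y : M => γ' • y) p u =
        tvec n (fun y : M => (γ' * γ⁻¹) • y) (E x) (tvec n (fun y : M => γ • y) p u) := by
      rw [← h1, ← tvec_mul hD, inv_mul_cancel_right]
    have e2 := dvec_arrow hD (V := T) (ψ := E)
      (fun z hz => hE.1.2.mdifferentiableAt (hE.1.1.mem_nhds hz)) hE hU hUT hτ
      (fun y hy => hWT (hm hy)) he hxU (Einv E x (tvec n (fun y : M => γ • y) p u))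
    rw [apply_Einv (hE.2 x hx), ← e1, hτx] at e2
    rw [← e2, Einv_apply (hE.2 x' hx')]
  rw [herm_qloc, herm_qloc, key, key]
  have h3 := hQ.inv U τ hA x hxU (Einv E x (tvec n (fun y : M => γ • y) p u))
    (Einv E x (tvec n (fun y : M => γ • y) p w))
  rw [hτx] at h3
  exact h3.symm

end

/-- PUSHQ. -/
theorem pushq (hPAR : S_PARH.{u, v}) (hKAHM : S_KAHM.{u, v}) : S_PUSHQ.{u, v} := by
  intro n G M _ _ _ _ _ _ _ h hD T E hE hcov Q hQ
  have hcov' := hcov
  obtain ⟨C, hCT, -, hC⟩ := hcov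
  choose g s hsC hgs using hC
  have hsT : ∀ p, s p ∈ T := fun p => hCT (hsC p)
  have hholo := hD.act.holo
  have hT : IsOpen T := hE.1.1
  set q : M → Matrix (Fin n) (Fin n) ℂ := fun p => qloc E Q (g p) (s p) p with hq
  have hwd : ∀ (γ : G) (p : M) (x : Cn n), x ∈ T → γ • p = E x → ∀ u w,
      herm (q p) u w = hermi (Q x) (Einv E x (tvec n (fun y : M => γ • y) p u))
        (Einv E x (tvec n (fun y : M => γ • y) p w)) := by
    intro γ p x hx he u w
    rw [← herm_qloc]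
    exact qloc_wd hPAR hD hE hQ (hsT p) hx (hgs p) he u w
  have hinv : ∀ γ : G, InvMetric n q (fun y : M => γ • y) := by
    intro γ p u w
    have e1 : (g (γ • p) * γ) • p = E (s (γ • p)) := by
      rw [mul_smul]
      exact hgs _
    rw [hwd _ p _ (hsT _) e1, hwd (g (γ • p)) (γ • p) _ (hsT _) (hgs _), tvec_mul hD, tvec_mul hD]
  have hpos : ∀ p, (q p).PosDef := by
    intro p
    set L : Cn n →L[ℂ] Cn n := (Einv E (s p)).comp (tmap n (fun y : M => g p • y) p) with hL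
    have hLd : (Jt L).det ≠ 0 := by
      rw [Pool.Agent.Helper70.HS.det_Jt]
      have h1 : L.det = (Einv E (s p)).det * (tmap n (fun y : M => g p • y) p).det := by
        rw [hL]
        exact LinearMap.det_comp _ _
      rw [h1]
      refine mul_ne_zero ?_ (jac_smul_ne_zero hholo _ _)
      have hd : (LinearMap.toMatrix' (dmap n E (s p) : Cn n →ₗ[ℂ] Cn n)).det ≠ 0 := by
        rw [LinearMap.det_toMatrix']
        exact hE.2 _ (hsT p)
      have h3 : (Einv E (s p)).det = LinearMap.det (Matrix.toLin'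
          (LinearMap.toMatrix' (dmap n E (s p) : Cn n →ₗ[ℂ] Cn n))⁻¹) := rfl
      rw [h3, LinearMap.det_toLin', Matrix.det_nonsing_inv, Ring.inverse_eq_inv']
      exact inv_ne_zero hd
    have hinj : Function.Injective ((Jt L)ᴴ.mulVec) := by
      rw [Matrix.mulVec_injective_iff_isUnit, Matrix.isUnit_iff_isUnit_det,
        Matrix.det_conjTranspose, isUnit_iff_ne_zero]
      exact star_ne_zero.2 hLd
    have h2 := (hQ.posDef (s p) (hsT p)).conjTranspose_mul_mul_same hinj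
    rw [Matrix.conjTranspose_conjTranspose] at h2
    exact h2
  -- smoothness
  have hherm : HermMetric n M q := by
    refine ⟨hpos, fun V ψ hψ u v z₀ hz₀ => ?_⟩
    obtain ⟨hV, hψm⟩ := hψ
    have hψat : ∀ z ∈ V, MDifferentiableAt 𝓘(ℂ, Fin n → ℂ) 𝓘(ℂ, Fin n → ℂ) ψ z := fun z hz =>
      hψm.mdifferentiableAt (hV.mem_nhds hz)
    obtain ⟨-, -, hP3, -, -⟩ := hPAR hD
    set χ := chartAt (Fin n → ℂ) (ψ z₀) with hχ
    have hchart : Par n χ.symm χ.target :=
      ⟨⟨χ.open_target, mdiff_chart_symm (ψ z₀)⟩, fun z hz => jac_chart_symm_ne_zero (ψ z₀) hz⟩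
    have hp : ψ z₀ ∈ χ.source := mem_chart_source _ _
    obtain ⟨τ₀, U, W, hU, hW, hxU, hx'W, hUV, hWT, hτ₀, -, hmaps₀, -, -, hiff⟩ :=
      hP3 χ.target T χ.symm E hchart hE (g (ψ z₀)) (χ (ψ z₀)) (χ.map_source hp) (s (ψ z₀))
        (hsT _) (by rw [χ.left_inv hp, hgs])
    have hc : ContinuousOn ψ V := hψm.continuousOn
    have hN1 : IsOpen (V ∩ ψ ⁻¹' χ.source) := hc.isOpen_inter_preimage hV χ.open_source
    have hmχ : ∀ z ∈ V ∩ ψ ⁻¹' χ.source,
        MDifferentiableAt 𝓘(ℂ, Fin n → ℂ) 𝓘(ℂ, Fin n → ℂ) (χ ∘ ψ) z := fun z hz =>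
      ((mdiff_chart (ψ z₀)).mdifferentiableAt (χ.open_source.mem_nhds hz.2)).comp z
        (hψat z hz.1)
    have hcχ : ContinuousOn (χ ∘ ψ) (V ∩ ψ ⁻¹' χ.source) := fun z hz =>
      (hmχ z hz).continuousAt.continuousWithinAt
    set N : Set (Cn n) := (V ∩ ψ ⁻¹' χ.source) ∩ (χ ∘ ψ) ⁻¹' U with hNdef
    have hN : IsOpen N := hcχ.isOpen_inter_preimage hN1 hU
    have hz₀N : z₀ ∈ N := ⟨⟨hz₀, hp⟩, hxU⟩
    set τ : Cn n → Cn n := fun z => τ₀ (χ (ψ z)) with hτdef
    have hτ : DifferentiableOn ℂ τ N := by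
      refine hτ₀.comp (fun z hz => ?_) (fun z hz => hz.2)
      exact (mdifferentiableAt_iff_differentiableAt.1 (hmχ z hz.1)).differentiableWithinAt
    have hmaps : MapsTo τ N T := fun z hz => hWT (hmaps₀ hz.2)
    have heq : ∀ z ∈ N, g (ψ z₀) • ψ z = E (τ z) := by
      intro z hz
      have h1 := (hiff (χ (ψ z)) hz.2 (τ z) (hmaps₀ hz.2)).2 rfl
      rwa [χ.left_inv hz.1.2] at h1
    have hform : ∀ z ∈ N, metricForm n q ψ z u v =
        (hermi (Q (τ z)) (fderiv ℂ τ z u) (fderiv ℂ τ z v)).im := by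
      intro z hz
      unfold metricForm
      rw [hwd (g (ψ z₀)) (ψ z) (τ z) (hmaps hz) (heq z hz),
        ← dvec_arrow hD hψat hE hN (fun z hz => hz.1.1) hτ hmaps heq hz,
        ← dvec_arrow hD hψat hE hN (fun z hz => hz.1.1) hτ hmaps heq hz,
        Einv_apply (hE.2 _ (hmaps hz)), Einv_apply (hE.2 _ (hmaps hz))]
    have hsm : ContDiffOn ℝ ∞ (fun z => (hermi (Q (τ z)) (fderiv ℂ τ z u)
        (fderiv ℂ τ z v)).im) N := by
      have hτr : ContDiffOn ℝ ∞ τ N := holo_contDiffOn_real hN hτ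
      have hdr : ∀ (w : Cn n) (i : Fin n), ContDiffOn ℝ ∞ (fun z => fderiv ℂ τ z w i) N := by
        intro w i
        have h1 := Pool.Agent.Helper8.Abund.differentiableOn_fderiv_apply hN hτ w
        exact contDiffOn_pi.1 (holo_contDiffOn_real hN h1) i
      have h1 : ContDiffOn ℝ ∞ (fun z => hermi (Q (τ z)) (fderiv ℂ τ z u)
          (fderiv ℂ τ z v)) N := by
        unfold hermi
        refine ContDiffOn.sum fun i _ => ContDiffOn.sum fun j _ => ?_
        refine (((hQ.smooth i j).comp hτr hmaps).mul (hdr u i)).mul ?_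
        exact (Complex.conjCLE.contDiff (n := ∞)).comp_contDiffOn (hdr v j)
      exact (Complex.imCLM.contDiff (n := ∞)).comp_contDiffOn h1
    have h3 : ContDiffAt ℝ ∞ (fun z => metricForm n q ψ z u v) z₀ := by
      refine (hsm.contDiffAt (hN.mem_nhds hz₀N)).congr_of_eventuallyEq ?_
      filter_upwards [hN.mem_nhds hz₀N] with y hy
      exact hform y hy
    exact h3.contDiffWithinAt
  have hpm : ∀ x ∈ T, pm n q E x = Q x := by
    intro x hx
    ext i j
    have h1 := hwd 1 (E x) x hx (one_smul _ _) (dvec n E x (Pi.single i 1))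
      (dvec n E x (Pi.single j 1))
    rw [tvec_one, tvec_one, Einv_apply (hE.2 x hx), Einv_apply (hE.2 x hx)] at h1
    have h2 : hermi (Q x) (Pi.single i 1) (Pi.single j 1) = Q x i j := by
      unfold hermi
      rw [Finset.sum_eq_single i, Finset.sum_eq_single j]
      · simp
      · intro b _ hb
        simp [Pi.single_apply, hb]
      · simp
      · intro b _ hb
        simp [Pi.single_apply, hb]
      · simp
    rw [← h2, ← h1]
    rfl
  refine ⟨q, hherm, ?_, hinv, hpm⟩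
  refine hKAHM hD hherm hinv T E hE hcov' ?_
  have hfun : ∀ x ∈ T, ∀ i j l, cd l (fun y => pm n q E y i j) x = cd l (fun y => Q y i j) x := by
    intro x hx i j l
    have h3 : (fun y => pm n q E y i j) =ᶠ[𝓝 x] fun y => Q y i j := by
      filter_upwards [hT.mem_nhds hx] with y hy
      rw [hpm y hy]
    unfold cd
    rw [h3.fderiv_eq]
  refine ⟨fun i j => (hQ.smooth i j).congr fun x hx => by rw [hpm x hx], fun x hx => ?_,
    fun x hx i j l => ?_⟩
  · rw [hpm x hx]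
    exact (hQ.posDef x hx).isHermitian
  · rw [hfun x hx, hfun x hx]
    exact hQ.closed x hx i j l

end Pool.Agent.Helper45.HB
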