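import Pool.Agent.Helper82.HB.Cal
import Pool.Agent.Helper15.GS.GoalsF
import Pool.Agent.Helper45.Stmt.DefsHB

/-!
# HB: the link to manifolds
-/

open Complex Metric Set Filter Topology MeasureTheory
open scoped ContDiff ComplexConjugate ComplexOrder Manifold Matrix

namespace Pool.Agent.Helper45.HB

open Pool.Agent.Helper95.Lin Pool.Agent.Helper16.Abund Pool.Agent.Helper92.Orb
  Pool.Agent.Helper10.SP Pool.Agent.Helper95.RK Pool.Agent.Helper57.HS
  Pool.Agent.Helper15.HS Pool.Agent.Helper10.HS Pool.Agent.Helper15.GS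
  Pool.Agent.Helper82.HB
open Pool.Agent.Helper45.Stmt (SeminegAlong CurvAddPos)

universe u v

/-- UNIS. A parametrization with cocompact image on which `g = σ h σᴴ` with `σ`, `h` as in `HDat`. -/
def S_UNIS : Prop := ∀ {n m : ℕ} {G : Type u} {M : Type v} [Group G] [MulAction G M]
  [TopologicalSpace M] [T2Space M] [ConnectedSpace M] [ChartedSpace (Fin n → ℂ) M]
  [IsManifold 𝓘(ℂ, Fin n → ℂ) ω M] {om g : M → Matrix (Fin n) (Fin n) ℂ}, 0 < n →
  DataH n G M om → SeminegAlong n m M g →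
  ∃ (T : Set (Cn n)) (E : Cn n → M) (σ : Cn n → Matrix (Fin n) (Fin m) ℂ)
    (h : Cn n → Matrix (Fin m) (Fin m) ℂ), Par n E T ∧
    (∃ C ⊆ T, IsCompact C ∧ ∀ p : M, ∃ (γ : G), ∃ x ∈ C, γ • p = E x) ∧
    (∀ i a, DifferentiableOn ℂ (fun x => σ x i a) T) ∧ (∀ x ∈ T, (h x).PosDef) ∧
    (∀ a b, ContDiffOn ℝ ∞ (fun x => h x a b) T) ∧ (∀ x ∈ T, pm n g E x = gS σ h x) ∧
    NegS T σ h

/-- HDM. The data on the étale relation. -/
def S_HDM : Prop := ∀ {n m : ℕ} {G : Type u} {M : Type v} [Group G] [MulAction G M]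
  [TopologicalSpace M] [T2Space M] [ConnectedSpace M] [ChartedSpace (Fin n → ℂ) M]
  [IsManifold 𝓘(ℂ, Fin n → ℂ) ω M] {om g : M → Matrix (Fin n) (Fin n) ℂ},
  DataH n G M om → (∀ γ : G, InvMetric n g (fun y : M => γ • y)) → ∀ v : M → ℝ,
  CanMetric n M v →
  (∀ (γ : G) (x : M), v (γ • x) * ‖jac n (fun y : M => γ • y) x‖ ^ 2 = v x) →
  CurvAddPos n M v g → ∀ (T : Set (Cn n)) (E : Cn n → M)
  (σ : Cn n → Matrix (Fin n) (Fin m) ℂ) (h : Cn n → Matrix (Fin m) (Fin m) ℂ), Par n E T →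
  (∃ C ⊆ T, IsCompact C ∧ ∀ p : M, ∃ (γ : G), ∃ x ∈ C, γ • p = E x) →
  (∀ i a, DifferentiableOn ℂ (fun x => σ x i a) T) → (∀ x ∈ T, (h x).PosDef) →
  (∀ a b, ContDiffOn ℝ ∞ (fun x => h x a b) T) → (∀ x ∈ T, pm n g E x = gS σ h x) →
  NegS T σ h →
  HDat T (RelT (G := G) T E) (pm n om E) σ h (fun x => lpot n v E x - ld (pm n om E) x)

/-- The main theorem HB, internal form. -/
def S_MAINH : Prop := ∀ {n m : ℕ} {G : Type u} {M : Type v} [Group G] [MulAction G M]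
  [TopologicalSpace M] [T2Space M] [ConnectedSpace M] [ChartedSpace (Fin n → ℂ) M]
  [IsManifold 𝓘(ℂ, Fin n → ℂ) ω M] {om g : M → Matrix (Fin n) (Fin n) ℂ},
  DataH n G M om → SeminegAlong n m M g → (∀ γ : G, InvMetric n g (fun y : M => γ • y)) →
  ∀ v : M → ℝ, CanMetric n M v →
  (∀ (γ : G) (x : M), v (γ • x) * ‖jac n (fun y : M => γ • y) x‖ ^ 2 = v x) →
  CurvAddPos n M v g → OrbSemiample n G M

end Pool.Agent.Helper45.HB
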