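import Pool.Agent.Helper45.HB.GoalsM
import Pool.Agent.Helper10.HS.UNIH
import Pool.Agent.Helper9.RK.ParK
import Pool.Agent.Helper35.RK.PMB

/-! # HB: UNIS, a parametrization on which `g = σ h σᴴ` -/

open Complex Metric Set Filter Topology MeasureTheory
open scoped ContDiff ComplexConjugate ComplexOrder Manifold Matrix

namespace Pool.Agent.Helper45.HB

open Pool.Agent.Helper95.Lin Pool.Agent.Helper16.Abund Pool.Agent.Helper92.Orb
  Pool.Agent.Helper10.SP Pool.Agent.Helper95.RK Pool.Agent.Helper57.HS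
  Pool.Agent.Helper15.HS Pool.Agent.Helper10.HS Pool.Agent.Helper15.GS
  Pool.Agent.Helper82.HB
open Pool.Agent.Helper45.Stmt (SeminegAlong CurvAddPos)
open Pool.Agent.Helper27.SP (par_local)
open Pool.Agent.Helper10.HS.UNIHp (par_shift)

universe u v

variable {n m : ℕ}

/-- The local data. -/
structure LocS {M : Type v} [TopologicalSpace M] [ChartedSpace (Fin n → ℂ) M]
    (g : M → Matrix (Fin n) (Fin n) ℂ) (V : Set (Cn n)) (ψ : Cn n → M)
    (σ : Cn n → Matrix (Fin n) (Fin m) ℂ) (h : Cn n → Matrix (Fin m) (Fin m) ℂ) : Prop where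
  par : Par n ψ V
  holo : ∀ i a, DifferentiableOn ℂ (fun x => σ x i a) V
  posDef : ∀ x ∈ V, (h x).PosDef
  smooth : ∀ a b, ContDiffOn ℝ ∞ (fun x => h x a b) V
  eq : ∀ x ∈ V, pm n g ψ x = gS σ h x
  neg : NegS V σ h

/-! ## The curvature -/

theorem curvE_eq {W : Set (Cn n)} (hW : IsOpen W) {h : Cn n → Matrix (Fin m) (Fin m) ℂ}
    (hs : ∀ a b, ContDiffOn ℝ ∞ (fun x => h x a b) W) (hp : ∀ x ∈ W, (h x).PosDef) {x : Cn n}
    (hx : x ∈ W) (a b : Fin m) (k l : Fin n) :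
    Pool.Agent.Helper45.Stmt.curvE h x a b k l = - (RE h k l x * h x) a b := by
  have hu : IsUnit (h x).det := isUnit_iff_ne_zero.2 (hp x hx).det_pos.ne'
  have h1 : GamE h k x * h x * (GamE h l x)ᴴ = cdM k h x * (h x)⁻¹ * cdbM l h x := by
    rw [cdbM_E hW hs hp hx l, ← gamE_mul (hp x hx) k, Matrix.mul_assoc (GamE h k x * h x) (h x)⁻¹,
      ← Matrix.mul_assoc (h x)⁻¹, Matrix.nonsing_inv_mul _ hu, Matrix.one_mul]
  have h2 : cdbM l (cdM k h) x a b = cd k (cdb l fun y => h y a b) x := by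
    have h3 := congrFun (congrFun (cdR_cdbR hW hx (X := h) hs k l) a) b
    exact h3.symm
  rw [RE_mul hW hs hp hx k l, Matrix.sub_apply, h2, h1]
  unfold Pool.Agent.Helper45.Stmt.curvE
  rw [Matrix.mul_apply]
  simp only [Matrix.mul_apply, Finset.sum_mul]
  rw [Finset.sum_comm]
  show -cd k (cdb l fun y => h y a b) x + _ = _
  rw [neg_sub, sub_eq_add_neg, add_comm]
  rfl

theorem neg_of {W : Set (Cn n)} (hW : IsOpen W) {σ : Cn n → Matrix (Fin n) (Fin m) ℂ}
    {h : Cn n → Matrix (Fin m) (Fin m) ℂ}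
    (hs : ∀ a b, ContDiffOn ℝ ∞ (fun x => h x a b) W) (hp : ∀ x ∈ W, (h x).PosDef)
    (hn : ∀ x ∈ W, ∀ u w : Fin n → ℂ, (∑ i, ∑ j, ∑ k, ∑ l,
      Pool.Agent.Helper45.Stmt.curvE h x i j k l *
      (w ᵥ* σ x) i * conj ((w ᵥ* σ x) j) * u k * conj (u l)).re ≤ 0) : NegS W σ h := by
  intro x hx u w
  have h1 := hn x hx u w
  have h2 : (∑ i, ∑ j, ∑ k, ∑ l, Pool.Agent.Helper45.Stmt.curvE h x i j k l *
      (w ᵥ* σ x) i * conj ((w ᵥ* σ x) j) * u k * conj (u l)) =
      - ∑ k, ∑ l, u k * conj (u l) * hermi (σ x * (RE h k l x * h x) * (σ x)ᴴ) w w := by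
    have h3 : ∀ A : Matrix (Fin m) (Fin m) ℂ, hermi (σ x * A * (σ x)ᴴ) w w =
        ∑ i, ∑ j, A i j * (w ᵥ* σ x) i * conj ((w ᵥ* σ x) j) := by
      intro A
      have e1 : ∀ (B : Matrix (Fin n) (Fin n) ℂ), hermi B w w = w ⬝ᵥ B *ᵥ star w := by
        intro B
        unfold hermi dotProduct Matrix.mulVec dotProduct
        refine Finset.sum_congr rfl fun i _ => ?_
        rw [Finset.mul_sum]
        refine Finset.sum_congr rfl fun j _ => ?_
        simp only [Pi.star_apply, Complex.star_def]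
        ring
      have e2 : (σ x)ᴴ *ᵥ star w = star (w ᵥ* σ x) := (Matrix.star_vecMul _ _).symm
      rw [e1, ← Matrix.mulVec_mulVec, ← Matrix.mulVec_mulVec, e2, Matrix.dotProduct_mulVec]
      unfold dotProduct Matrix.mulVec dotProduct
      refine Finset.sum_congr rfl fun i _ => ?_
      rw [Finset.mul_sum]
      refine Finset.sum_congr rfl fun j _ => ?_
      simp only [Pi.star_apply, Complex.star_def]
      ring
    simp only [h3, curvE_eq hW hs hp hx, Finset.mul_sum, ← Finset.sum_neg_distrib]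
    calc (∑ i, ∑ j, ∑ k, ∑ l, -(RE h k l x * h x) i j * (w ᵥ* σ x) i *
          conj ((w ᵥ* σ x) j) * u k * conj (u l))
        = ∑ i, ∑ k, ∑ j, ∑ l, -(RE h k l x * h x) i j * (w ᵥ* σ x) i *
          conj ((w ᵥ* σ x) j) * u k * conj (u l) :=
          Finset.sum_congr rfl fun i _ => Finset.sum_comm
      _ = ∑ k, ∑ i, ∑ j, ∑ l, -(RE h k l x * h x) i j * (w ᵥ* σ x) i *
          conj ((w ᵥ* σ x) j) * u k * conj (u l) := Finset.sum_comm
      _ = ∑ k, ∑ i, ∑ l, ∑ j, -(RE h k l x * h x) i j * (w ᵥ* σ x) i *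
          conj ((w ᵥ* σ x) j) * u k * conj (u l) :=
          Finset.sum_congr rfl fun k _ => Finset.sum_congr rfl fun i _ => Finset.sum_comm
      _ = ∑ k, ∑ l, ∑ i, ∑ j, -(RE h k l x * h x) i j * (w ᵥ* σ x) i *
          conj ((w ᵥ* σ x) j) * u k * conj (u l) :=
          Finset.sum_congr rfl fun k _ => Finset.sum_comm
      _ = _ := by
          refine Finset.sum_congr rfl fun k _ => Finset.sum_congr rfl fun l _ =>
            Finset.sum_congr rfl fun i _ => Finset.sum_congr rfl fun j _ => ?_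
          ring
  rw [h2, Complex.neg_re] at h1
  linarith

/-! ## Translations and germs -/

theorem cd_shift (f : Cn n → ℂ) (a x : Cn n) (l : Fin n) :
    cd l (fun y => f (y + a)) x = cd l f (x + a) := by
  unfold cd
  rw [fderiv_comp_add_right]

theorem cdb_shift (f : Cn n → ℂ) (a x : Cn n) (l : Fin n) :
    cdb l (fun y => f (y + a)) x = cdb l f (x + a) := by
  unfold cdb
  rw [fderiv_comp_add_right]

theorem GamE_shift (h : Cn n → Matrix (Fin m) (Fin m) ℂ) (a x : Cn n) (k : Fin n) :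
    GamE (fun y => h (y + a)) k x = GamE h k (x + a) := by
  unfold GamE
  congr 1
  ext i j
  exact cd_shift (fun y => h y i j) a x k

theorem RE_shift (h : Cn n → Matrix (Fin m) (Fin m) ℂ) (a x : Cn n) (k l : Fin n) :
    RE (fun y => h (y + a)) k l x = RE h k l (x + a) := by
  unfold RE
  ext i j
  have h1 : (fun y => GamE (fun y => h (y + a)) k y i j) = fun y => GamE h k (y + a) i j := by
    funext y
    rw [GamE_shift]
  show cdb l (fun y => GamE (fun y => h (y + a)) k y i j) x = _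
  rw [h1]
  exact cdb_shift (fun y => GamE h k y i j) a x l

theorem RE_congr {h h' : Cn n → Matrix (Fin m) (Fin m) ℂ} {W : Set (Cn n)} (hW : IsOpen W)
    (he : ∀ y ∈ W, h y = h' y) {x : Cn n} (hx : x ∈ W) (k l : Fin n) :
    RE h k l x = RE h' k l x := by
  unfold RE
  refine cdbR_congr hW hx (fun y hy => ?_) l
  unfold GamE
  rw [he y hy]
  congr 1
  exact cdR_congr hW hy he k

section

variable {M : Type v} [TopologicalSpace M] [ChartedSpace (Fin n → ℂ) M]
  {g : M → Matrix (Fin n) (Fin n) ℂ}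

theorem pm_shift {V : Set (Cn n)} {ψ : Cn n → M} (hψ : Par n ψ V) (a : Cn n) {x : Cn n}
    (hx : x + a ∈ V) : pm n g (ψ ∘ fun y => y + a) x = pm n g ψ (x + a) := by
  have hm : MDifferentiableAt 𝓘(ℂ, Fin n → ℂ) 𝓘(ℂ, Fin n → ℂ) ψ (x + a) :=
    hψ.1.2.mdifferentiableAt (hψ.1.1.mem_nhds hx)
  have hd : ∀ u, dvec n (ψ ∘ fun y => y + a) x u = dvec n ψ (x + a) u := by
    intro u
    rw [Pool.Agent.Helper35.RK.dvec_comp_fderiv (φ := fun y => y + a) hm
      (differentiableAt_id.add_const a), fderiv_add_const, fderiv_fun_id]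
    rfl
  ext i j
  unfold pm
  rw [Matrix.of_apply, Matrix.of_apply, hd, hd]
  rfl

theorem LocS.shift {V V' : Set (Cn n)} {ψ : Cn n → M} {σ : Cn n → Matrix (Fin n) (Fin m) ℂ}
    {h : Cn n → Matrix (Fin m) (Fin m) ℂ} (hL : LocS g V ψ σ h) (a : Cn n)
    (hpar : Par n (ψ ∘ fun y => y + a) V') (hm : MapsTo (fun y => y + a) V' V) :
    LocS g V' (ψ ∘ fun y => y + a) (fun y => σ (y + a)) fun y => h (y + a) where
  par := hpar
  holo := fun i b => (hL.holo i b).comp (differentiable_id.add_const a).differentiableOn hm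
  posDef := fun x hx => hL.posDef _ (hm hx)
  smooth := fun b c => (hL.smooth b c).comp (contDiff_id.add contDiff_const).contDiffOn hm
  eq := fun x hx => by
    rw [pm_shift hL.par a (hm hx), hL.eq _ (hm hx)]
    rfl
  neg := fun x hx u w => by
    have h1 := hL.neg _ (hm hx) u w
    simp only [RE_shift]
    exact h1

theorem LocS.congr {V : Set (Cn n)} {ψ ψ' : Cn n → M}
    {σ σ' : Cn n → Matrix (Fin n) (Fin m) ℂ} {h h' : Cn n → Matrix (Fin m) (Fin m) ℂ}
    (hL : LocS g V ψ σ h) (hψ : ∀ y ∈ V, ψ' y = ψ y) (hσ : ∀ y ∈ V, σ' y = σ y)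
    (hh : ∀ y ∈ V, h' y = h y) : LocS g V ψ' σ' h' := by
  have hV := hL.par.1.1
  have he : ∀ x ∈ V, ψ' =ᶠ[𝓝 x] ψ := fun x hx => by
    filter_upwards [hV.mem_nhds hx] with y hy using hψ y hy
  refine ⟨par_local hV fun x hx => ⟨ψ, V, hL.par, hx, he x hx⟩,
    fun i a => (hL.holo i a).congr fun x hx => by rw [hσ x hx], fun x hx => ?_,
    fun a b => (hL.smooth a b).congr fun x hx => by rw [hh x hx], fun x hx => ?_,
    fun x hx u w => ?_⟩
  · rw [hh x hx]
    exact hL.posDef x hx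
  · have h1 : pm n g ψ' x = pm n g ψ x := by
      ext i j
      have h4 := (he x hx).mfderiv_eq (I := 𝓘(ℂ, Fin n → ℂ)) (I' := 𝓘(ℂ, Fin n → ℂ))
      have h2 : ∀ e : Cn n, dvec n ψ' x e = dvec n ψ x e := by
        intro e
        exact DFunLike.congr_fun (F := (Fin n → ℂ) →L[ℂ] (Fin n → ℂ)) h4 e
      unfold pm
      rw [Matrix.of_apply, Matrix.of_apply, h2, h2, hψ x hx]
    rw [h1, hL.eq x hx]
    unfold gS
    rw [hσ x hx, hh x hx]
  · have h1 := hL.neg x hx u w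
    have h2 : ∀ k l, RE h' k l x = RE h k l x := fun k l => RE_congr hV hh hx k l
    simp only [h2, hσ x hx, hh x hx]
    exact h1

/-- The conditions of `LocS` are local. -/
theorem LocS.union {ι : Type*} {V : ι → Set (Cn n)} {ψ : Cn n → M}
    {σ : Cn n → Matrix (Fin n) (Fin m) ℂ} {h : Cn n → Matrix (Fin m) (Fin m) ℂ}
    (hL : ∀ i, LocS g (V i) ψ σ h) : LocS g (⋃ i, V i) ψ σ h := by
  have hV : ∀ i, IsOpen (V i) := fun i => (hL i).par.1.1
  refine ⟨par_local (isOpen_iUnion hV) fun x hx => ?_, fun i a x hx => ?_, fun x hx => ?_,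
    fun a b x hx => ?_, fun x hx => ?_, fun x hx => ?_⟩
  · obtain ⟨i, hi⟩ := mem_iUnion.1 hx
    exact ⟨ψ, V i, (hL i).par, hi, Filter.EventuallyEq.rfl⟩
  · obtain ⟨j, hj⟩ := mem_iUnion.1 hx
    exact (((hL j).holo i a).differentiableAt ((hV j).mem_nhds hj)).differentiableWithinAt
  · obtain ⟨i, hi⟩ := mem_iUnion.1 hx
    exact (hL i).posDef x hi
  · obtain ⟨i, hi⟩ := mem_iUnion.1 hx
    exact (((hL i).smooth a b).contDiffAt ((hV i).mem_nhds hi)).contDiffWithinAt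
  · obtain ⟨i, hi⟩ := mem_iUnion.1 hx
    exact (hL i).eq x hi
  · obtain ⟨i, hi⟩ := mem_iUnion.1 hx
    exact (hL i).neg x hi

theorem locS_of (hg : SeminegAlong n m M g) (p : M) : ∃ (V : Set (Cn n)) (ψ : Cn n → M)
    (z : Cn n) (σ : Cn n → Matrix (Fin n) (Fin m) ℂ) (h : Cn n → Matrix (Fin m) (Fin m) ℂ),
    z ∈ V ∧ ψ z = p ∧ LocS g V ψ σ h := by
  obtain ⟨V, ψ, z, σ, h, h1, h2, h3, h4, h5, h6, h7, h8⟩ := hg p
  exact ⟨V, ψ, z, σ, h, h2, h3, h1, h4, h5, h6, h7, neg_of h1.1.1 h6 h5 h8⟩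

end

theorem unis (hPARH : S_PARH.{u, v}) : S_UNIS.{u, v} := by
  classical
  intro n m G M _ _ _ _ _ _ _ om g hn hD hg
  have hP4 := (hPARH hD).2.2.2.1
  have hch : ∀ p : M, ∃ (r : ℝ) (ψ : Cn n → M) (σ : Cn n → Matrix (Fin n) (Fin m) ℂ)
      (h : Cn n → Matrix (Fin m) (Fin m) ℂ), 0 < r ∧ r ≤ 1 ∧ LocS g (ball 0 (2 * r)) ψ σ h ∧
      ψ 0 = p := by
    intro p
    obtain ⟨V, ψ, z, σ, h, hz, hp, hL⟩ := locS_of hg p
    obtain ⟨s, hs, hsub⟩ := Metric.isOpen_iff.1 hL.par.1.1 _ hz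
    have hm : MapsTo (fun y => y + z) (ball (0 : Cn n) (2 * min (s / 2) 1)) V := by
      intro y hy
      refine hsub ?_
      rw [mem_ball, dist_eq_norm]
      rw [mem_ball_zero_iff] at hy
      have : min (s / 2) 1 ≤ s / 2 := min_le_left _ _
      change ‖y + z - z‖ < s
      rw [add_sub_cancel_right]
      linarith
    refine ⟨min (s / 2) 1, ψ ∘ fun y => y + z, fun y => σ (y + z), fun y => h (y + z),
      by positivity, min_le_right _ _, hL.shift z (par_shift hPARH hD _ hL.par isOpen_ball hm)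
        hm, ?_⟩
    change ψ (0 + z) = p
    rw [zero_add, hp]
  choose r ψ σ h hr0 hr1 hS h0 using hch
  obtain ⟨K, hK, hcov⟩ := hD.act.cocompact
  have hopen : ∀ p : M, IsOpen (ψ p '' ball 0 (r p)) := fun p =>
    hP4 _ (ψ p) (hS p).par _ (ball_subset_ball (by linarith [hr0 p])) isOpen_ball
  have hmem : ∀ p : M, p ∈ ψ p '' ball 0 (r p) := fun p => ⟨0, mem_ball_self (hr0 p), h0 p⟩
  obtain ⟨t, ht⟩ := hK.elim_finite_subcover (fun p : M => ψ p '' ball 0 (r p)) hopen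
    (fun p _ => mem_iUnion.mpr ⟨p, hmem p⟩)
  obtain ⟨x₀⟩ := (inferInstance : Nonempty M)
  obtain ⟨γ₀, hγ₀⟩ := hcov x₀
  have hpos : 0 < t.card := by
    obtain ⟨p, hp⟩ := mem_iUnion.mp (ht hγ₀)
    obtain ⟨hpt, -⟩ := mem_iUnion.mp hp
    exact Finset.card_pos.mpr ⟨p, hpt⟩
  -- the centres
  let c : Fin t.card → Cn n := fun i _ => ((10 * (i : ℕ) : ℝ) : ℂ)
  have hne : Nonempty (Fin n) := ⟨⟨0, hn⟩⟩
  have hsep : ∀ i j, i ≠ j → (10 : ℝ) ≤ ‖c i - c j‖ := by
    intro i j hij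
    have h1 : ‖(c i - c j) ⟨0, hn⟩‖ ≤ ‖c i - c j‖ := norm_le_pi_norm (c i - c j) ⟨0, hn⟩
    refine le_trans ?_ h1
    have h2 : (c i - c j) ⟨0, hn⟩ = (((10 * (i : ℕ) : ℝ) - (10 * (j : ℕ) : ℝ) : ℝ) : ℂ) := by
      simp [c]
    rw [h2, Complex.norm_real, Real.norm_eq_abs]
    have h3 : (1 : ℝ) ≤ |((i : ℕ) : ℝ) - ((j : ℕ) : ℝ)| := by
      have h4 : ((i : ℕ) : ℤ) ≠ ((j : ℕ) : ℤ) := by
        intro h5
        apply hij
        exact Fin.ext (by exact_mod_cast h5)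
      have h5 : (1 : ℤ) ≤ |((i : ℕ) : ℤ) - ((j : ℕ) : ℤ)| :=
        Int.one_le_abs (sub_ne_zero.2 h4)
      exact_mod_cast h5
    have h6 : (10 * ((i : ℕ) : ℝ) - 10 * ((j : ℕ) : ℝ)) =
        10 * (((i : ℕ) : ℝ) - ((j : ℕ) : ℝ)) := by ring
    rw [h6, abs_mul, abs_of_pos (by norm_num : (0 : ℝ) < 10)]
    linarith
  have huniq : ∀ (z : Cn n) i j, z ∈ ball (c i) 2 → z ∈ ball (c j) 2 → i = j := by
    intro z i j hi hj
    by_contra hij
    have h1 := hsep i j hij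
    rw [mem_ball, dist_eq_norm] at hi hj
    have h2 : c i - c j = (z - c j) - (z - c i) := by abel
    have h3 : ‖c i - c j‖ ≤ ‖z - c j‖ + ‖z - c i‖ := by
      rw [h2]; exact norm_sub_le _ _
    linarith
  let ix : Cn n → Fin t.card := fun z =>
    if h : ∃ i, z ∈ ball (c i) 2 then h.choose else ⟨0, hpos⟩
  have hix : ∀ (z : Cn n) i, z ∈ ball (c i) 2 → ix z = i := by
    intro z i hz
    have hex : ∃ i, z ∈ ball (c i) 2 := ⟨i, hz⟩
    have h1 : ix z = hex.choose := by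
      simp only [ix]
      rw [dif_pos hex]
    rw [h1]
    exact huniq z _ _ hex.choose_spec hz
  let q : Fin t.card → M := fun i => t.equivFin.symm i
  let E : Cn n → M := fun x => ψ (q (ix x)) (x + -c (ix x))
  let σ' : Cn n → Matrix (Fin n) (Fin m) ℂ := fun x => σ (q (ix x)) (x + -c (ix x))
  let h' : Cn n → Matrix (Fin m) (Fin m) ℂ := fun x => h (q (ix x)) (x + -c (ix x))
  have hlt : ∀ i, 2 * r (q i) ≤ 2 := fun i => by linarith [hr1 (q i)]
  have hmm : ∀ i, MapsTo (fun y => y + -c i) (ball (c i) (2 * r (q i)))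
      (ball (0 : Cn n) (2 * r (q i))) := by
    intro i y hy
    rw [mem_ball, dist_eq_norm] at hy
    rw [mem_ball_zero_iff]
    change ‖y + -c i‖ < _
    rwa [← sub_eq_add_neg]
  have hloc : ∀ i, LocS g (ball (c i) (2 * r (q i))) E σ' h' := by
    intro i
    have hb : ∀ y ∈ ball (c i) (2 * r (q i)), ix y = i := fun y hy =>
      hix _ i (ball_subset_ball (hlt i) hy)
    refine ((hS (q i)).shift (-c i) (par_shift hPARH hD _ (hS (q i)).par isOpen_ball (hmm i))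
      (hmm i)).congr (fun y hy => ?_) (fun y hy => ?_) fun y hy => ?_
    · show ψ (q (ix y)) (y + -c (ix y)) = ψ (q i) (y + -c i)
      rw [hb y hy]
    · show σ (q (ix y)) (y + -c (ix y)) = σ (q i) (y + -c i)
      rw [hb y hy]
    · show h (q (ix y)) (y + -c (ix y)) = h (q i) (y + -c i)
      rw [hb y hy]
  have hall := LocS.union hloc
  refine ⟨⋃ i, ball (c i) (2 * r (q i)), E, σ', h', hall.par,
    ⟨⋃ i, closedBall (c i) (r (q i)), ?_, ?_, ?_⟩, hall.holo, hall.posDef, hall.smooth, hall.eq,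
    hall.neg⟩
  · refine iUnion_mono fun i => closedBall_subset_ball ?_
    linarith [hr0 (q i)]
  · exact isCompact_iUnion fun i => isCompact_closedBall _ _
  · intro p
    obtain ⟨γ, hγ⟩ := hcov p
    obtain ⟨q', hq⟩ := mem_iUnion.mp (ht hγ)
    obtain ⟨hqt, x, hx, hxe⟩ := mem_iUnion.mp hq
    obtain ⟨i, hi⟩ : ∃ i, i = t.equivFin ⟨q', hqt⟩ := ⟨_, rfl⟩
    have h2 : q i = q' := by
      simp only [q, hi, Equiv.symm_apply_apply]
    have hz1 : x + c i ∈ ball (c i) (r (q i)) := by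
      rw [mem_ball, dist_eq_norm, add_sub_cancel_right, h2]
      exact mem_ball_zero_iff.1 hx
    refine ⟨γ, x + c i, mem_iUnion.2 ⟨i, ball_subset_closedBall hz1⟩, ?_⟩
    have h3 : ix (x + c i) = i := hix _ i (ball_subset_ball (by linarith [hr1 (q i)]) hz1)
    change γ • p = ψ (q (ix (x + c i))) (x + c i + -c (ix (x + c i)))
    rw [h3, add_neg_cancel_right, h2]
    exact hxe.symm

end Pool.Agent.Helper45.HB
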