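import Pool.Agent.Helper45.HB.SDR
import Pool.Agent.Helper45.HB.UNIS
import Pool.Agent.Helper45.HB.PUSHQ
import Pool.Agent.Helper45.RBC.Main
import Pool.Agent.Helper82.HB.HOUT
import Pool.Agent.Helper82.HB.SDL
import Pool.Agent.Helper82.HB.SBET
import Pool.Agent.Helper82.HB.SND
import Pool.Agent.Helper10.HB.SNK
import Pool.Agent.Helper10.HB.HB5
import Pool.Agent.Helper10.HB.HNUL
import Pool.Agent.Helper10.HB.MAINH
import Pool.Agent.Helper40.HB.SAV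
import Pool.Agent.Helper40.HB.SVP
import Pool.Agent.Helper40.HB.SHM
import Pool.Agent.Helper29.HL.HLIM
import Pool.Agent.Helper15.HB.HCLO
import Pool.Agent.Helper15.HB.HFL
import Pool.Agent.Helper57.HX.AsmH
import Pool.Agent.Helper57.HX.Hdm

/-! # HB: the main theorem -/

open Complex Metric Set Filter Topology MeasureTheory
open scoped ContDiff ComplexConjugate ComplexOrder Manifold Matrix

namespace Pool.Agent.Helper45.HB.Asm

open Pool.Agent.Helper95.Lin Pool.Agent.Helper16.Abund Pool.Agent.Helper92.Orb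
  Pool.Agent.Helper10.SP Pool.Agent.Helper95.RK Pool.Agent.Helper57.HS
  Pool.Agent.Helper15.HS Pool.Agent.Helper10.HS Pool.Agent.Helper15.RK
  Pool.Agent.Helper10.SP.Asm Pool.Agent.Helper15.HS.Asm Pool.Agent.Helper15.GS
  Pool.Agent.Helper15.GS.Asm Pool.Agent.Helper57.RBC Pool.Agent.Helper15.RBC
  Pool.Agent.Helper10.RBC Pool.Agent.Helper45.RBC Pool.Agent.Helper57.RBC.Asm
  Pool.Agent.Helper10.RK.Asm Pool.Agent.Helper45.RBC.Asm Pool.Agent.Helper57.HX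
  Pool.Agent.Helper57.HX.Asm Pool.Agent.Helper82.HB

universe u v

theorem t_SDR : S_SDR := Pool.Agent.Helper45.HB.sdr
theorem t_SDL : S_SDL := Pool.Agent.Helper82.HB.sdl
theorem t_SBET : S_SBET.{u} := Pool.Agent.Helper82.HB.sbet
theorem t_SAV : S_SAV.{u} := Pool.Agent.Helper40.HB.sav t_NULL0 t_DETI
theorem t_SRLV : S_SRLV.{u} := Pool.Agent.Helper40.HB.srlv t_WIRT t_RLV t_RFAM t_RHOI t_MOMG
theorem t_SVP : S_SVP.{u} :=
  Pool.Agent.Helper40.HB.svp t_SRLV t_SAV t_SBET t_SDL t_RHOI t_NULL0 t_DETI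
theorem t_SHM : S_SHM.{u} :=
  Pool.Agent.Helper40.HB.shm t_SBET t_SDL t_TRC (t_VOLP t_MOMG) t_MOMG t_RHOI t_RHB
theorem t_SND : S_SND.{u} := Pool.Agent.Helper82.HB.snd (t_RWT t_AYG) t_SBET h_SLG t_SAV
theorem t_SNK : S_SNK.{u} :=
  Pool.Agent.Helper10.HB.snk t_WIRT t_CMPG t_RHOI t_SRLV t_SND t_SAV t_SBET t_SDL t_RDL t_TRC
    t_NULL0
theorem t_HB5 : S_HB5.{u} :=
  Pool.Agent.Helper10.HB.hb5 t_PUE t_TRI t_NULL0 t_TRC t_KETP t_RHOI t_MOMG h_SCL t_SBET t_SDR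
theorem t_HNUL : S_HNUL.{u} := Pool.Agent.Helper10.HB.hnul t_WIRT t_MCAL t_CSY
theorem t_HCLO : Pool.Agent.Helper15.HB.S_HCLO.{u} :=
  Pool.Agent.Helper15.HB.hclo t_WIRT t_PUE t_DETI Pool.Agent.Helper15.RK.Asm.t_ST2A
    Pool.Agent.Helper15.RK.Asm.t_POSK
theorem t_HFL : Pool.Agent.Helper15.HB.S_HFL := Pool.Agent.Helper15.HB.hfl t_WIRT
theorem t_HLIM : S_HLIM.{u} :=
  Pool.Agent.Helper29.HL.hlim t_ARRB t_SDB t_SDK h_SCL (t_HLC t_AYG) t_HFL t_HCLO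

theorem t_HOUT : S_HOUT.{u} :=
  Pool.Agent.Helper82.HB.hout t_PUE t_KAPI t_RHOI (t_VOLP t_MOMG) t_HX (t_XEX t_AYG)
    (t_XBK t_AYG) t_HLIM t_SBET t_SNK t_SVP t_SHM t_HB5 t_HNUL

theorem t_UNIS : S_UNIS.{u, v} := unis t_PARH
theorem t_PUSHQ : S_PUSHQ.{u, v} := pushq t_PARH t_KAHM
theorem t_HDM : S_HDM.{u, v} :=
  Pool.Agent.Helper57.HX.hdm t_PARH t_KETH t_DETI t_LMF t_WIRT

/-- The main theorem HB. -/
theorem t_MAINH : S_MAINH.{u, v} :=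
  Pool.Agent.Helper10.HB.mainh t_UNIS t_HDM t_HOUT t_PUSHQ t_PUSHV t_RKM t_GAL t_LMF t_DETI
    t_FOLZ t_FLD t_FLF t_FLTM t_FRONT tH_MAINRK

end Pool.Agent.Helper45.HB.Asm
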