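import Pool.Agent.Helper82.HB.GoalsB
import Pool.Agent.Helper40.HB.LinR
import Pool.Agent.Helper44.RBC.Rd

/-! # HB: SDR -/

open Complex Metric Set Filter Topology MeasureTheory
open scoped ContDiff ComplexConjugate ComplexOrder Manifold Matrix

namespace Pool.Agent.Helper45.HB

open Pool.Agent.Helper82.HB

theorem sdr : S_SDR := by
  intro n m r Q f h P hQ hh hPP hPh htr hf
  have hβ : (f * h * fᴴ).PosSemidef := hh.posSemidef.mul_mul_conjTranspose_same f
  have hr : (f * h * fᴴ).rank ≤ r := by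
    have h1 : (f * h * fᴴ).rank ≤ f.rank := by
      rw [Matrix.mul_assoc]
      exact Matrix.rank_mul_le_left _ _
    have h2 : f.rank ≤ P.rank := by
      conv_lhs => rw [← hf]
      exact Matrix.rank_mul_le_right _ _
    have h3 : P.rank = r := by
      have h4 := Pool.Agent.Helper44.RBC.rank_proj P hPP
      rw [htr] at h4
      exact_mod_cast h4.symm
    omega
  obtain ⟨g1, g2⟩ := Pool.Agent.Helper40.HB.galr r Q (f * h * fᴴ) hQ hβ hr
  refine ⟨g1, fun h0 => ?_⟩
  obtain ⟨e1, -, e3, -, -⟩ := g2 h0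
  refine ⟨?_, e3⟩
  rw [← Matrix.mul_assoc, e1]

end Pool.Agent.Helper45.HB
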